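import Pool.Agent.Helper12.BT.LAP
import Pool.Agent.Helper83.BT.LMAX

/-! Block STEP2: explicit supersolutions (helper21). -/

namespace Pool.Helper4.BT
open MeasureTheory Metric Set Laplacian InnerProductSpace

/-! ### Superharmonic bookkeeping -/

/-- `f` is `C²` at `x` and `-Δ f ≥ b` at `x`. -/
def SupS (f : E → ℝ) (x : E) (b : ℝ) : Prop := ContDiffAt ℝ 2 f x ∧ b ≤ -(Δ f) x

theorem SupS.add {f g : E → ℝ} {x : E} {b c : ℝ} (hf : SupS f x b) (hg : SupS g x c) :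
    SupS (fun y => f y + g y) x (b + c) := by
  refine ⟨hf.1.add hg.1, ?_⟩
  have h : (Δ (fun y => f y + g y)) x = (Δ f) x + (Δ g) x :=
    ContDiffAt.laplacian_add hf.1 hg.1
  rw [h]
  linarith [hf.2, hg.2]

theorem SupS.const (c : ℝ) (x : E) : SupS (fun _ => c) x 0 := by
  refine ⟨contDiffAt_const, ?_⟩
  have h : (Δ (fun _ : E => c)) = 0 := laplacian_const
  rw [h]
  simp

theorem SupS.smul {f : E → ℝ} {x : E} {b : ℝ} (hf : SupS f x b) {c : ℝ} (hc : 0 ≤ c) :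
    SupS (fun y => c * f y) x (c * b) := by
  refine ⟨contDiffAt_const.mul hf.1, ?_⟩
  have h : (Δ (c • f)) x = c • (Δ f) x := laplacian_smul c hf.1
  have h2 : (fun y => c * f y) = c • f := rfl
  rw [h2, h, smul_eq_mul, ← mul_neg]
  exact mul_le_mul_of_nonneg_left hf.2 hc

theorem SupS.sum {ι : Type} (s : Finset ι) {f : ι → E → ℝ} {x : E} {b : ι → ℝ}
    (hf : ∀ i ∈ s, SupS (f i) x (b i)) :
    SupS (fun y => ∑ i ∈ s, f i y) x (∑ i ∈ s, b i) := by
  classical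
  induction s using Finset.induction_on with
  | empty => simpa using SupS.const 0 x
  | insert a s ha ih =>
    have h1 := hf a (Finset.mem_insert_self _ _)
    have h2 := ih fun i hi => hf i (Finset.mem_insert_of_mem hi)
    have h3 := h1.add h2
    simp only [Finset.sum_insert ha]
    exact h3

theorem SupS.mono {f : E → ℝ} {x : E} {b c : ℝ} (hf : SupS f x b) (h : c ≤ b) : SupS f x c :=
  ⟨hf.1, h.trans hf.2⟩

/-! ### Radial functions -/

theorem lap_of {φ φ1 φ2 : ℝ → ℝ} (h1 : ∀ a, 0 < a → HasDerivAt φ (φ1 a) a)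
    (h2 : ∀ a, 0 < a → HasDerivAt φ1 (φ2 a) a) (hc : ∀ a, 0 < a → ContDiffAt ℝ 2 φ a)
    {μ : ℝ} (hμ : 0 < μ) (z x : E) :
    (Δ (fun y => φ (A μ z y))) x = φ2 (A μ z x) * (4 * ‖x - z‖ ^ 2) + φ1 (A μ z x) * 12 := by
  have hA := A_pos hμ z x
  rw [lap_comp_A φ μ z x (hc _ hA)]
  have hd : deriv φ =ᶠ[nhds (A μ z x)] φ1 := by
    filter_upwards [lt_mem_nhds hA] with a ha
    exact (h1 a ha).deriv
  rw [hd.deriv_eq, (h1 _ hA).deriv, (h2 _ hA).deriv]

theorem sqrt_hasDeriv {a : ℝ} (ha : 0 < a) : HasDerivAt Real.sqrt (1 / (2 * √a)) a :=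
  Real.hasDerivAt_sqrt ha.ne'

theorem inv_pow_deriv {f : ℝ → ℝ} {f' a : ℝ} (h : HasDerivAt f f' a) (h0 : f a ≠ 0) (n : ℕ) :
    HasDerivAt (fun a => (f a ^ n)⁻¹) (-(n * f a ^ (n - 1) * f') / (f a ^ n) ^ 2) a :=
  (h.pow n).inv (pow_ne_zero n h0)

/-- the function `(D + √a)^{-4}` -/
theorem G_deriv1 {D : ℝ} (hD : 0 ≤ D) {a : ℝ} (ha : 0 < a) :
    HasDerivAt (fun a => ((D + √a) ^ 4)⁻¹) (-2 * ((D + √a) ^ 5)⁻¹ * (√a)⁻¹) a := by
  have hs : 0 < √a := Real.sqrt_pos.2 ha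
  have hp : 0 < D + √a := by positivity
  have h1 : HasDerivAt (fun a => D + √a) (1 / (2 * √a)) a := (sqrt_hasDeriv ha).const_add D
  have h2 := inv_pow_deriv h1 hp.ne' 4
  refine h2.congr_deriv ?_
  simp only [Nat.cast_ofNat, Nat.add_one_sub_one]
  field_simp
  ring

theorem G_deriv2 {D : ℝ} (hD : 0 ≤ D) {a : ℝ} (ha : 0 < a) :
    HasDerivAt (fun a => -2 * ((D + √a) ^ 5)⁻¹ * (√a)⁻¹)
      (5 * ((D + √a) ^ 6)⁻¹ * (√a ^ 2)⁻¹ + ((D + √a) ^ 5)⁻¹ * (√a ^ 3)⁻¹) a := by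
  have hs : 0 < √a := Real.sqrt_pos.2 ha
  have hp : 0 < D + √a := by positivity
  have h0 := sqrt_hasDeriv ha
  have h1 : HasDerivAt (fun a => D + √a) (1 / (2 * √a)) a := h0.const_add D
  have h2 := (inv_pow_deriv h1 hp.ne' 5).const_mul (-2 : ℝ)
  have h3 := h0.inv hs.ne'
  have h4 : HasDerivAt (fun a => -2 * ((D + √a) ^ 5)⁻¹ * (√a)⁻¹) _ a := h2.mul h3
  refine h4.congr_deriv ?_
  simp only [Nat.cast_ofNat, Nat.add_one_sub_one]
  field_simp

theorem G_contDiff {D : ℝ} (hD : 0 ≤ D) {a : ℝ} (ha : 0 < a) :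
    ContDiffAt ℝ 2 (fun a => ((D + √a) ^ 4)⁻¹) a := by
  have hs : 0 < √a := Real.sqrt_pos.2 ha
  have hp : 0 < D + √a := by positivity
  have h1 : ContDiffAt ℝ 2 Real.sqrt a := Real.contDiffAt_sqrt ha.ne'
  exact ((contDiffAt_const.add h1).pow 4).inv (by positivity)

/-- `ρ_l` -/
noncomputable def rh (μ : ℝ) (z x : E) : ℝ := √(A μ z x)

theorem rh_pos {μ : ℝ} (hμ : 0 < μ) (z x : E) : 0 < rh μ z x := Real.sqrt_pos.2 (A_pos hμ z x)

theorem rh_sq {μ : ℝ} (hμ : 0 < μ) (z x : E) : rh μ z x ^ 2 = A μ z x :=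
  Real.sq_sqrt (A_pos hμ z x).le

theorem le_rh (μ : ℝ) (z x : E) : μ ≤ rh μ z x := by
  apply Real.le_sqrt_of_sq_le
  unfold A
  have := sq_nonneg ‖x - z‖
  linarith

theorem norm_le_rh (μ : ℝ) (z x : E) : ‖x - z‖ ≤ rh μ z x := by
  apply Real.le_sqrt_of_sq_le
  unfold A
  have := sq_nonneg μ
  linarith

theorem rh_le_add {μ : ℝ} (hμ : 0 < μ) (z x : E) : rh μ z x ≤ μ + ‖x - z‖ := by
  apply Real.sqrt_le_iff.2
  refine ⟨by positivity, ?_⟩
  unfold A
  have := mul_nonneg hμ.le (norm_nonneg (x - z))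
  nlinarith

theorem sup_G {D μ : ℝ} (hD : 0 < D) (hμ : 0 < μ) (z x : E) :
    SupS (fun y => ((D + rh μ z y) ^ 4)⁻¹) x
      (20 * D * ((D + rh μ z x) ^ 6)⁻¹ * (rh μ z x)⁻¹) := by
  have hA := A_pos hμ z x
  have hr := rh_pos hμ z x
  constructor
  · exact (G_contDiff hD.le hA).comp x (contDiff_A μ z).contDiffAt
  · have h := lap_of (fun a ha => G_deriv1 hD.le ha) (fun a ha => G_deriv2 hD.le ha)
      (fun a ha => G_contDiff hD.le ha) hμ z x
    have h' : (Δ (fun y => ((D + rh μ z y) ^ 4)⁻¹)) x = _ := h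
    rw [h']
    change _ ≤ -((5 * ((D + rh μ z x) ^ 6)⁻¹ * (rh μ z x ^ 2)⁻¹
      + ((D + rh μ z x) ^ 5)⁻¹ * (rh μ z x ^ 3)⁻¹) * (4 * ‖x - z‖ ^ 2)
      + -2 * ((D + rh μ z x) ^ 5)⁻¹ * (rh μ z x)⁻¹ * 12)
    have h1 : ‖x - z‖ ^ 2 ≤ rh μ z x ^ 2 :=
      pow_le_pow_left₀ (norm_nonneg _) (norm_le_rh μ z x) 2
    set r := rh μ z x
    have hp : 0 < D + r := by positivity
    have h2 : (5 * ((D + r) ^ 6)⁻¹ * (r ^ 2)⁻¹ + ((D + r) ^ 5)⁻¹ * (r ^ 3)⁻¹)
        * (4 * ‖x - z‖ ^ 2) ≤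
        (5 * ((D + r) ^ 6)⁻¹ * (r ^ 2)⁻¹ + ((D + r) ^ 5)⁻¹ * (r ^ 3)⁻¹) * (4 * r ^ 2) := by
      apply mul_le_mul_of_nonneg_left (by linarith) (by positivity)
    have h3 : (5 * ((D + r) ^ 6)⁻¹ * (r ^ 2)⁻¹ + ((D + r) ^ 5)⁻¹ * (r ^ 3)⁻¹) * (4 * r ^ 2)
        + -2 * ((D + r) ^ 5)⁻¹ * r⁻¹ * 12 = -(20 * D * ((D + r) ^ 6)⁻¹ * r⁻¹) := by
      field_simp
      ring
    linarith

/-- the function `μ² a^{-2} - (1/5) μ³ a^{-5/2}` -/
theorem V_deriv1 (m : ℝ) {a : ℝ} (ha : 0 < a) :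
    HasDerivAt (fun a => m ^ 2 * (√a ^ 4)⁻¹ - 1 / 5 * m ^ 3 * (√a ^ 5)⁻¹)
      (-2 * m ^ 2 * (√a ^ 6)⁻¹ + 1 / 2 * m ^ 3 * (√a ^ 7)⁻¹) a := by
  have hs : 0 < √a := Real.sqrt_pos.2 ha
  have h0 := sqrt_hasDeriv ha
  have h1 := (inv_pow_deriv h0 hs.ne' 4).const_mul (m ^ 2)
  have h2 := (inv_pow_deriv h0 hs.ne' 5).const_mul (1 / 5 * m ^ 3)
  refine (h1.sub h2).congr_deriv ?_
  simp only [Nat.cast_ofNat, Nat.add_one_sub_one]
  field_simp
  ring

theorem V_deriv2 (m : ℝ) {a : ℝ} (ha : 0 < a) :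
    HasDerivAt (fun a => -2 * m ^ 2 * (√a ^ 6)⁻¹ + 1 / 2 * m ^ 3 * (√a ^ 7)⁻¹)
      (6 * m ^ 2 * (√a ^ 8)⁻¹ - 7 / 4 * m ^ 3 * (√a ^ 9)⁻¹) a := by
  have hs : 0 < √a := Real.sqrt_pos.2 ha
  have h0 := sqrt_hasDeriv ha
  have h1 := (inv_pow_deriv h0 hs.ne' 6).const_mul (-2 * m ^ 2)
  have h2 := (inv_pow_deriv h0 hs.ne' 7).const_mul (1 / 2 * m ^ 3)
  refine (h1.add h2).congr_deriv ?_
  simp only [Nat.cast_ofNat, Nat.add_one_sub_one]
  field_simp
  ring

theorem V_contDiff (m : ℝ) {a : ℝ} (ha : 0 < a) :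
    ContDiffAt ℝ 2 (fun a => m ^ 2 * (√a ^ 4)⁻¹ - 1 / 5 * m ^ 3 * (√a ^ 5)⁻¹) a := by
  have hs : 0 < √a := Real.sqrt_pos.2 ha
  have h1 : ContDiffAt ℝ 2 Real.sqrt a := Real.contDiffAt_sqrt ha.ne'
  exact (contDiffAt_const.mul ((h1.pow 4).inv (by positivity))).sub
    (contDiffAt_const.mul ((h1.pow 5).inv (by positivity)))

theorem sup_V {μ : ℝ} (hμ : 0 < μ) (z x : E) :
    SupS (fun y => μ ^ 2 * (rh μ z y ^ 4)⁻¹ - 1 / 5 * μ ^ 3 * (rh μ z y ^ 5)⁻¹) x
      (μ ^ 3 * (rh μ z x ^ 7)⁻¹) := by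
  have hA := A_pos hμ z x
  have hr := rh_pos hμ z x
  constructor
  · exact (V_contDiff μ hA).comp x (contDiff_A μ z).contDiffAt
  · have h := lap_of (fun a ha => V_deriv1 μ ha) (fun a ha => V_deriv2 μ ha)
      (fun a ha => V_contDiff μ ha) hμ z x
    have h' : (Δ (fun y : E =>
        (μ ^ 2 * (rh μ z y ^ 4)⁻¹ - 1 / 5 * μ ^ 3 * (rh μ z y ^ 5)⁻¹ : ℝ))) x = _ := h
    rw [h']
    change _ ≤ -((6 * μ ^ 2 * (rh μ z x ^ 8)⁻¹ - 7 / 4 * μ ^ 3 * (rh μ z x ^ 9)⁻¹)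
      * (4 * ‖x - z‖ ^ 2) + (-2 * μ ^ 2 * (rh μ z x ^ 6)⁻¹ + 1 / 2 * μ ^ 3 * (rh μ z x ^ 7)⁻¹) * 12)
    have h1 : ‖x - z‖ ^ 2 = rh μ z x ^ 2 - μ ^ 2 := by
      rw [rh_sq hμ]; unfold A; ring
    have h2 := le_rh μ z x
    rw [h1]
    set r := rh μ z x
    have h3 : -((6 * μ ^ 2 * (r ^ 8)⁻¹ - 7 / 4 * μ ^ 3 * (r ^ 9)⁻¹) * (4 * (r ^ 2 - μ ^ 2))
        + (-2 * μ ^ 2 * (r ^ 6)⁻¹ + 1 / 2 * μ ^ 3 * (r ^ 7)⁻¹) * 12)
        = μ ^ 3 * (r ^ 7)⁻¹ + μ ^ 4 * (24 * r - 7 * μ) * (r ^ 9)⁻¹ := by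
      field_simp
      ring
    rw [h3]
    have h4 : 0 ≤ μ ^ 4 * (24 * r - 7 * μ) * (r ^ 9)⁻¹ := by
      apply mul_nonneg (mul_nonneg (by positivity) (by linarith)) (by positivity)
    linarith

theorem sup_w0 (p x : E) : SupS (fun y => 1 - ‖y - p‖ ^ 2) x 12 := by
  have hA := A_pos one_pos p x
  have h1 : ∀ a : ℝ, 0 < a → HasDerivAt (fun a : ℝ => 2 - a) (-1) a := fun a _ => by
    simpa using (hasDerivAt_id a).const_sub (2 : ℝ)
  have h2 : ∀ a : ℝ, 0 < a → HasDerivAt (fun _ : ℝ => (-1 : ℝ)) 0 a := fun a _ =>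
    hasDerivAt_const a (-1 : ℝ)
  have h3 : ∀ a : ℝ, 0 < a → ContDiffAt ℝ 2 (fun a : ℝ => 2 - a) a := fun a _ =>
    contDiffAt_const.sub contDiffAt_id
  have he : (fun y : E => 1 - ‖y - p‖ ^ 2) = fun y => (fun a : ℝ => 2 - a) (A 1 p y) := by
    funext y; simp only [A]; ring
  constructor
  · rw [he]
    exact (h3 _ hA).comp x (contDiff_A 1 p).contDiffAt
  · have h := lap_of (φ1 := fun _ => (-1 : ℝ)) (φ2 := fun _ => (0 : ℝ)) h1 h2 h3 one_pos p x
    rw [he, h]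
    norm_num

/-! ### The barriers -/

theorem exp_log_le {k : ℕ} (hk : 1 ≤ k) (s : Finset ℕ) (hs : s.card ≤ k) (a D : ℕ → ℝ)
    (ha : ∀ l ∈ s, 0 < a l) (hD : ∀ l ∈ s, 0 ≤ D l) :
    Real.exp (kap k * ∑ l ∈ s, (Real.log (a l + D l ^ 2) - Real.log (a l)))
      ≤ 1 + ∑ l ∈ s, D l / √(a l) := by
  have hk' : (0 : ℝ) < k := by exact_mod_cast hk
  have hkap : 0 < kap k := by unfold kap; positivity
  set S := ∑ l ∈ s, D l / √(a l) with hS
  have hnn : ∀ l ∈ s, 0 ≤ D l / √(a l) := fun l hl => div_nonneg (hD l hl) (Real.sqrt_nonneg _)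
  have hS0 : 0 ≤ S := Finset.sum_nonneg hnn
  have hterm : ∀ l ∈ s, Real.log (a l + D l ^ 2) - Real.log (a l) ≤ 2 * Real.log (1 + S) := by
    intro l hl
    have h1 := ha l hl
    have h2 := hD l hl
    have h3 : D l / √(a l) ≤ S := Finset.single_le_sum hnn hl
    rw [← Real.log_div (by positivity) h1.ne']
    have h4 : (a l + D l ^ 2) / a l ≤ (1 + S) ^ 2 := by
      have h5 : (a l + D l ^ 2) / a l = 1 + (D l / √(a l)) ^ 2 := by
        rw [div_pow, Real.sq_sqrt h1.le]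
        field_simp
      rw [h5]
      have h6 := hnn l hl
      nlinarith
    calc Real.log ((a l + D l ^ 2) / a l) ≤ Real.log ((1 + S) ^ 2) :=
          Real.log_le_log (by positivity) h4
      _ = 2 * Real.log (1 + S) := by rw [Real.log_pow]; norm_num
  have hlog : 0 ≤ Real.log (1 + S) := Real.log_nonneg (by linarith)
  have hsum : kap k * ∑ l ∈ s, (Real.log (a l + D l ^ 2) - Real.log (a l))
      ≤ Real.log (1 + S) := by
    calc kap k * ∑ l ∈ s, (Real.log (a l + D l ^ 2) - Real.log (a l))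
        ≤ kap k * (s.card • (2 * Real.log (1 + S))) :=
          mul_le_mul_of_nonneg_left (Finset.sum_le_card_nsmul _ _ _ hterm) hkap.le
      _ = (s.card / (16 * k)) * Real.log (1 + S) := by
          unfold kap; rw [nsmul_eq_mul]; field_simp; ring
      _ ≤ 1 * Real.log (1 + S) := by
          apply mul_le_mul_of_nonneg_right _ hlog
          rw [div_le_one (by positivity)]
          have : (s.card : ℝ) ≤ k := by exact_mod_cast hs
          linarith
      _ = Real.log (1 + S) := one_mul _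
  calc Real.exp _ ≤ Real.exp (Real.log (1 + S)) := Real.exp_le_exp.2 hsum
    _ = 1 + S := Real.exp_log (by linarith)

theorem F0_sq_le {k : ℕ} (hk : 1 ≤ k) (mu : ℕ → ℝ) (z : ℕ → E) (x : E)
    (hmu : ∀ l < k, 0 < mu l) :
    F0 k mu z x ^ 2 ≤ 1 + ∑ l ∈ Finset.range k, (rh (mu l) (z l) x)⁻¹ := by
  unfold F0
  rw [← Real.exp_nat_mul]
  have h := exp_log_le hk (Finset.range k) (by simp) (fun l => A (mu l) (z l) x) (fun _ => 1)
    (fun l hl => A_pos (hmu l (Finset.mem_range.1 hl)) _ _) (fun _ _ => zero_le_one)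
  have h1 : ((2 : ℕ) : ℝ) * (kap k / 2 * ∑ l ∈ Finset.range k,
      (Real.log (A (mu l) (z l) x + 1) - Real.log (A (mu l) (z l) x))) =
      kap k * ∑ l ∈ Finset.range k,
      (Real.log (A (mu l) (z l) x + 1 ^ 2) - Real.log (A (mu l) (z l) x)) := by
    simp only [one_pow]; push_cast; ring
  rw [h1]
  refine h.trans (le_of_eq ?_)
  simp [rh, one_div]

theorem Fj_sq_le {k : ℕ} (hk : 1 ≤ k) (mu : ℕ → ℝ) (z : ℕ → E) (j : ℕ) (x : E)
    (hmu : ∀ l < k, 0 < mu l) (hj : j < k) :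
    Fj k mu z j x ^ 2 ≤ mu j ^ 3 * (rh (mu j) (z j) x ^ 7)⁻¹ *
      (1 + ∑ l ∈ (Finset.range k).erase j, Dd mu z l j * (rh (mu l) (z l) x)⁻¹) := by
  have hr := rh_pos (hmu j hj) (z j) x
  have hA := A_pos (hmu j hj) (z j) x
  unfold Fj
  rw [← Real.exp_nat_mul]
  have h := exp_log_le hk ((Finset.range k).erase j)
    ((Finset.card_erase_le).trans (by simp)) (fun l => A (mu l) (z l) x) (fun l => Dd mu z l j)
    (fun l hl => A_pos (hmu l (Finset.mem_range.1 (Finset.mem_of_mem_erase hl))) _ _)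
    (fun l _ => (norm_nonneg _).trans (le_max_left _ _))
  have h1 : ((2 : ℕ) : ℝ) * ((3 / 2) * Real.log (mu j) - (7 / 4) * Real.log (A (mu j) (z j) x) +
      (kap k / 2) * ∑ l ∈ (Finset.range k).erase j,
      (Real.log (A (mu l) (z l) x + Dd mu z l j ^ 2) - Real.log (A (mu l) (z l) x))) =
      (Real.log (mu j ^ 3) - Real.log (rh (mu j) (z j) x ^ 7)) +
      kap k * ∑ l ∈ (Finset.range k).erase j,
      (Real.log (A (mu l) (z l) x + Dd mu z l j ^ 2) - Real.log (A (mu l) (z l) x)) := by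
    rw [Real.log_pow, Real.log_pow, ← rh_sq (hmu j hj), Real.log_pow]
    push_cast; ring
  rw [h1, Real.exp_add, Real.exp_sub, Real.exp_log (by have := hmu j hj; positivity),
    Real.exp_log (by positivity), div_eq_mul_inv]
  apply mul_le_mul_of_nonneg_left _ (by have := hmu j hj; positivity)
  refine h.trans (le_of_eq ?_)
  simp [rh, div_eq_mul_inv]

/-! ### The supersolution -/

/-- the pair inequality -/
theorem pair_le {mu : ℕ → ℝ} {z : ℕ → E} {l j : ℕ} (hl : 0 < mu l) (hj : 0 < mu j) (x : E) :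
    mu j ^ 3 * (rh (mu j) (z j) x ^ 7)⁻¹ * (Dd mu z l j * (rh (mu l) (z l) x)⁻¹) ≤
      8 * (mu j ^ 3 * (rh (mu j) (z j) x ^ 7)⁻¹) +
      mu j ^ 3 * (Dd mu z l j)⁻¹ * (20 * Dd mu z l j *
        ((Dd mu z l j + rh (mu l) (z l) x) ^ 6)⁻¹ * (rh (mu l) (z l) x)⁻¹) := by
  have hrj := rh_pos hj (z j) x
  have hrl := rh_pos hl (z l) x
  have hD : 0 < Dd mu z l j := lt_of_lt_of_le hj (le_max_right _ _)
  set D := Dd mu z l j with hDd
  set a := rh (mu j) (z j) x with ha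
  set b := rh (mu l) (z l) x with hb
  rcases le_or_gt D (8 * b) with h | h
  · have h1 : D * b⁻¹ ≤ 8 := by
      rw [← div_eq_mul_inv, div_le_iff₀ hrl]; exact h
    have h2 : mu j ^ 3 * (a ^ 7)⁻¹ * (D * b⁻¹) ≤ mu j ^ 3 * (a ^ 7)⁻¹ * 8 :=
      mul_le_mul_of_nonneg_left h1 (by positivity)
    have h3 : 0 ≤ mu j ^ 3 * D⁻¹ * (20 * D * ((D + b) ^ 6)⁻¹ * b⁻¹) := by positivity
    linarith
  · -- `a ≥ 7/8 D`
    have h7 : 7 / 8 * D ≤ a := by
      rcases le_total ‖z l - z j‖ (mu j) with h1 | h1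
      · have h2 : D = mu j := max_eq_right h1
        have h3 : mu j ≤ a := le_rh _ _ _
        linarith
      · have h2 : D = ‖z l - z j‖ := max_eq_left h1
        have h3 : ‖x - z j‖ ≤ a := norm_le_rh _ _ _
        have h4 : ‖x - z l‖ ≤ b := norm_le_rh _ _ _
        have h5 : ‖z l - z j‖ ≤ ‖x - z l‖ + ‖x - z j‖ := by
          have : z l - z j = -(x - z l) + (x - z j) := by abel
          rw [this]
          refine (norm_add_le _ _).trans ?_
          rw [norm_neg]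
        linarith
    have h8 : (a ^ 7)⁻¹ ≤ ((7 / 8 * D) ^ 7)⁻¹ := by
      apply inv_anti₀ (by positivity)
      exact pow_le_pow_left₀ (by positivity) h7 7
    have h9 : ((9 / 8 * D) ^ 6)⁻¹ ≤ ((D + b) ^ 6)⁻¹ := by
      apply inv_anti₀ (by positivity)
      apply pow_le_pow_left₀ (by positivity)
      linarith
    have h10 : ((7 / 8 * D) ^ 7)⁻¹ * D ≤ 20 * ((9 / 8 * D) ^ 6)⁻¹ := by
      rw [mul_pow, mul_pow, mul_inv, mul_inv]
      have h11 : (D ^ 7)⁻¹ * D = (D ^ 6)⁻¹ := by field_simp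
      have h12 : (0 : ℝ) < (D ^ 6)⁻¹ := by positivity
      have h13 : ((7 / 8 : ℝ) ^ 7)⁻¹ ≤ 20 * ((9 / 8 : ℝ) ^ 6)⁻¹ := by norm_num
      calc ((7 / 8 : ℝ) ^ 7)⁻¹ * (D ^ 7)⁻¹ * D = ((7 / 8 : ℝ) ^ 7)⁻¹ * ((D ^ 7)⁻¹ * D) := by ring
        _ = ((7 / 8 : ℝ) ^ 7)⁻¹ * (D ^ 6)⁻¹ := by rw [h11]
        _ ≤ 20 * ((9 / 8 : ℝ) ^ 6)⁻¹ * (D ^ 6)⁻¹ := mul_le_mul_of_nonneg_right h13 h12.le
        _ = 20 * (((9 / 8 : ℝ) ^ 6)⁻¹ * (D ^ 6)⁻¹) := by ring
    have h14 : (a ^ 7)⁻¹ * D ≤ 20 * ((D + b) ^ 6)⁻¹ := by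
      calc (a ^ 7)⁻¹ * D ≤ ((7 / 8 * D) ^ 7)⁻¹ * D := mul_le_mul_of_nonneg_right h8 hD.le
        _ ≤ 20 * ((9 / 8 * D) ^ 6)⁻¹ := h10
        _ ≤ 20 * ((D + b) ^ 6)⁻¹ := by linarith
    have h15 : mu j ^ 3 * (a ^ 7)⁻¹ * (D * b⁻¹) = mu j ^ 3 * b⁻¹ * ((a ^ 7)⁻¹ * D) := by ring
    have h16 : mu j ^ 3 * D⁻¹ * (20 * D * ((D + b) ^ 6)⁻¹ * b⁻¹)
        = mu j ^ 3 * b⁻¹ * (20 * ((D + b) ^ 6)⁻¹) := by field_simp
    have h17 : mu j ^ 3 * b⁻¹ * ((a ^ 7)⁻¹ * D) ≤ mu j ^ 3 * b⁻¹ * (20 * ((D + b) ^ 6)⁻¹) :=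
      mul_le_mul_of_nonneg_left h14 (by positivity)
    have h18 : 0 ≤ 8 * (mu j ^ 3 * (a ^ 7)⁻¹) := by positivity
    rw [h15, h16]
    linarith

/-- comparison of `W_jl` with `U_j` -/
theorem W_le {mu : ℕ → ℝ} {z : ℕ → E} {l j : ℕ} (hl : 0 < mu l) (hj : 0 < mu j) (x : E) :
    mu j ^ 3 * (Dd mu z l j)⁻¹ * ((Dd mu z l j + rh (mu l) (z l) x) ^ 4)⁻¹ ≤
      U (mu j) (z j) x := by
  have hrj := rh_pos hj (z j) x
  have hrl := rh_pos hl (z l) x
  have hDm : mu j ≤ Dd mu z l j := le_max_right _ _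
  have hD : 0 < Dd mu z l j := lt_of_lt_of_le hj hDm
  have hDz : ‖z l - z j‖ ≤ Dd mu z l j := le_max_left _ _
  have h1 : rh (mu j) (z j) x ≤ 2 * (Dd mu z l j + rh (mu l) (z l) x) := by
    have h2 := rh_le_add hj (z j) x
    have h4 : ‖x - z l‖ ≤ rh (mu l) (z l) x := norm_le_rh _ _ _
    have h5 : ‖x - z j‖ ≤ ‖x - z l‖ + ‖z l - z j‖ := by
      have : x - z j = (x - z l) + (z l - z j) := by abel
      rw [this]
      exact norm_add_le _ _
    linarith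
  set D := Dd mu z l j
  set a := rh (mu j) (z j) x with ha
  set b := rh (mu l) (z l) x
  have hU : U (mu j) (z j) x = 24 * mu j ^ 2 * (a ^ 4)⁻¹ := by
    unfold U
    rw [← rh_sq hj, div_eq_mul_inv, ← ha]
    congr 2
    ring
  rw [hU]
  have h2 : mu j ^ 3 * D⁻¹ ≤ mu j ^ 2 := by
    rw [← div_eq_mul_inv, div_le_iff₀ hD]
    have : 0 ≤ mu j ^ 2 := by positivity
    nlinarith
  have h3 : ((D + b) ^ 4)⁻¹ ≤ 16 * (a ^ 4)⁻¹ := by
    have h4 : a ^ 4 ≤ (2 * (D + b)) ^ 4 := pow_le_pow_left₀ hrj.le h1 4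
    have h5 : ((2 * (D + b)) ^ 4)⁻¹ ≤ (a ^ 4)⁻¹ := inv_anti₀ (by positivity) h4
    have h6 : ((2 * (D + b)) ^ 4)⁻¹ = ((D + b) ^ 4)⁻¹ / 16 := by
      rw [mul_pow, mul_inv]; norm_num; ring
    rw [h6] at h5
    linarith
  calc mu j ^ 3 * D⁻¹ * ((D + b) ^ 4)⁻¹ ≤ mu j ^ 2 * (16 * (a ^ 4)⁻¹) :=
        mul_le_mul h2 h3 (by positivity) (by positivity)
    _ ≤ 24 * mu j ^ 2 * (a ^ 4)⁻¹ := by
        have : 0 ≤ mu j ^ 2 * (a ^ 4)⁻¹ := by positivity
        linarith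

theorem V_bounds {μ : ℝ} (hμ : 0 < μ) (z x : E) :
    0 ≤ μ ^ 2 * (rh μ z x ^ 4)⁻¹ - 1 / 5 * μ ^ 3 * (rh μ z x ^ 5)⁻¹ ∧
    μ ^ 2 * (rh μ z x ^ 4)⁻¹ - 1 / 5 * μ ^ 3 * (rh μ z x ^ 5)⁻¹ ≤ U μ z x := by
  have hr := rh_pos hμ z x
  have h2 := le_rh μ z x
  have hU : U μ z x = 24 * μ ^ 2 * (rh μ z x ^ 4)⁻¹ := by
    unfold U
    rw [← rh_sq hμ, div_eq_mul_inv]
    congr 2
    ring
  rw [hU]
  set r := rh μ z x
  have h3 : μ ^ 3 * (r ^ 5)⁻¹ ≤ μ ^ 2 * (r ^ 4)⁻¹ := by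
    have : μ ^ 3 * (r ^ 5)⁻¹ = μ ^ 2 * (r ^ 4)⁻¹ * (μ * r⁻¹) := by field_simp
    rw [this]
    have h5 : μ * r⁻¹ ≤ 1 := by
      rw [← div_eq_mul_inv, div_le_one hr]; exact h2
    have h6 : 0 ≤ μ ^ 2 * (r ^ 4)⁻¹ := by positivity
    nlinarith
  have h4 : 0 ≤ μ ^ 3 * (r ^ 5)⁻¹ := by positivity
  constructor <;> nlinarith

theorem step2 : ∀ (k : ℕ) (_ : 1 ≤ k) (Λ C C2 : ℝ), ∃ C3 : ℝ, 1 ≤ C3 ∧
    ∀ (p : E) (R : ℝ) (u : E → ℝ) (lam : ℝ) (mu : ℕ → ℝ) (z : ℕ → E),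
      0 < R → R ≤ 1 / 4 → 0 ≤ lam → lam ≤ Λ → ContDiff ℝ 2 u → Sol p R lam u →
      (∀ l < k, 0 < mu l ∧ mu l ≤ 1 / 2 ∧ ‖z l - p‖ ≤ R) →
      (∀ x ∈ closedBall p R,
        |u x| ≤ C * (F0 k mu z x + ∑ j ∈ Finset.range k, Fj k mu z j x)) →
      (∀ x, ‖x - p‖ = R → |u x| ≤ C2) →
      ∀ x ∈ closedBall p R, |u x| ≤ C3 * (1 + ∑ l ∈ Finset.range k, U (mu l) (z l) x) := by
  intro k hk Λ C C2
  -- constants
  set M : ℝ := |Λ| / 2 + (|Λ| / 2 + 1) * (C ^ 2 * (k + 1)) with hM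
  have hM0 : 0 ≤ M := by positivity
  set M' : ℝ := M + 1 with hM'
  have hM'0 : 0 < M' := by positivity
  refine ⟨1 + |C2| + M' * (2 + 4 * k + (1 + 9 * k)), ?_, ?_⟩
  · have h1 : 0 ≤ |C2| := abs_nonneg _
    have h2 : 0 ≤ M' * (2 + 4 * k + (1 + 9 * k)) := by positivity
    linarith
  intro p R u lam mu z hR hR4 hlam0 hlam hu hSol hmz hbd hsph x hx
  have hmu : ∀ l < k, 0 < mu l := fun l hl => (hmz l hl).1
  have hk' : (1 : ℝ) ≤ k := by exact_mod_cast hk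
  -- the supersolution
  set S1 : E → ℝ := fun y => 1 - ‖y - p‖ ^ 2 with hS1
  set S2 : E → ℝ := fun y => ∑ l ∈ Finset.range k, 16 / 5 * ((1 + rh (mu l) (z l) y) ^ 4)⁻¹ with hS2
  set VV : ℕ → E → ℝ := fun j y =>
    mu j ^ 2 * (rh (mu j) (z j) y ^ 4)⁻¹ - 1 / 5 * mu j ^ 3 * (rh (mu j) (z j) y ^ 5)⁻¹ with hVV
  set S3 : E → ℝ := fun y => ∑ j ∈ Finset.range k, (1 + 8 * (k : ℝ)) * VV j y with hS3
  set WW : ℕ → ℕ → E → ℝ := fun j l y =>
    mu j ^ 3 * (Dd mu z l j)⁻¹ * ((Dd mu z l j + rh (mu l) (z l) y) ^ 4)⁻¹ with hWW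
  set S4 : E → ℝ := fun y => ∑ j ∈ Finset.range k, ∑ l ∈ (Finset.range k).erase j, WW j l y
    with hS4
  set T : E → ℝ := fun y => S1 y + (S2 y + (S3 y + S4 y)) with hT
  set S : E → ℝ := fun y => |C2| + M' * T y with hS
  -- nonnegativity and upper bounds on the ball
  have hball : ∀ y ∈ closedBall p R, ‖y - p‖ ≤ R := fun y hy => by
    rwa [mem_closedBall, dist_eq_norm] at hy
  have hrle : ∀ y ∈ closedBall p R, ∀ l < k, rh (mu l) (z l) y ≤ 1 := by
    intro y hy l hl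
    obtain ⟨h1, h2, h3⟩ := hmz l hl
    have h4 := rh_le_add h1 (z l) y
    have h5 := hball y hy
    have h6 : ‖y - z l‖ ≤ ‖y - p‖ + ‖z l - p‖ := by
      have : y - z l = (y - p) - (z l - p) := by abel
      rw [this]
      exact norm_sub_le _ _
    linarith
  have hT1 : ∀ y ∈ closedBall p R, 0 ≤ S1 y ∧ S1 y ≤ 1 := by
    intro y hy
    have h5 := hball y hy
    have h6 := norm_nonneg (y - p)
    simp only [hS1]
    constructor <;> nlinarith
  have hT2 : ∀ y, 0 ≤ S2 y ∧ S2 y ≤ 4 * k := by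
    intro y
    have h1 : ∀ l ∈ Finset.range k, 0 ≤ 16 / 5 * ((1 + rh (mu l) (z l) y) ^ 4)⁻¹ := by
      intro l hl
      have := rh_pos (hmu l (Finset.mem_range.1 hl)) (z l) y
      positivity
    have h2 : ∀ l ∈ Finset.range k, 16 / 5 * ((1 + rh (mu l) (z l) y) ^ 4)⁻¹ ≤ 4 := by
      intro l hl
      have h3 := rh_pos (hmu l (Finset.mem_range.1 hl)) (z l) y
      have h4 : ((1 + rh (mu l) (z l) y) ^ 4)⁻¹ ≤ 1 :=
        inv_le_one_of_one_le₀ (one_le_pow₀ (by linarith))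
      linarith
    refine ⟨Finset.sum_nonneg h1, ?_⟩
    have h5 := Finset.sum_le_card_nsmul _ _ _ h2
    simp only [Finset.card_range, nsmul_eq_mul] at h5
    simp only [hS2]
    linarith
  have hT3 : ∀ y, 0 ≤ S3 y ∧ S3 y ≤ (1 + 8 * k) * ∑ l ∈ Finset.range k, U (mu l) (z l) y := by
    intro y
    constructor
    · apply Finset.sum_nonneg
      intro j hj
      have := (V_bounds (hmu j (Finset.mem_range.1 hj)) (z j) y).1
      simp only [hVV]
      exact mul_nonneg (by positivity) this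
    · simp only [hS3]
      rw [← Finset.mul_sum]
      apply mul_le_mul_of_nonneg_left _ (by positivity)
      apply Finset.sum_le_sum
      intro j hj
      exact (V_bounds (hmu j (Finset.mem_range.1 hj)) (z j) y).2
  have hT4 : ∀ y, 0 ≤ S4 y ∧ S4 y ≤ k * ∑ l ∈ Finset.range k, U (mu l) (z l) y := by
    intro y
    constructor
    · apply Finset.sum_nonneg
      intro j hj
      apply Finset.sum_nonneg
      intro l hl
      have h1 := hmu j (Finset.mem_range.1 hj)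
      have h2 := rh_pos (hmu l (Finset.mem_range.1 (Finset.mem_of_mem_erase hl))) (z l) y
      have hD : 0 < Dd mu z l j := lt_of_lt_of_le h1 (le_max_right _ _)
      simp only [hWW]
      positivity
    · simp only [hS4]
      rw [Finset.mul_sum]
      apply Finset.sum_le_sum
      intro j hj
      have h1 := hmu j (Finset.mem_range.1 hj)
      have hUn : 0 ≤ U (mu j) (z j) y := by
        unfold U
        have := A_pos h1 (z j) y
        positivity
      have h3 : ∑ l ∈ (Finset.range k).erase j, WW j l y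
          ≤ ((Finset.range k).erase j).card • U (mu j) (z j) y := by
        apply Finset.sum_le_card_nsmul
        intro l hl
        exact W_le (hmu l (Finset.mem_range.1 (Finset.mem_of_mem_erase hl))) h1 y
      refine h3.trans ?_
      rw [nsmul_eq_mul]
      apply mul_le_mul_of_nonneg_right _ hUn
      have : ((Finset.range k).erase j).card ≤ k := (Finset.card_erase_le).trans (by simp)
      exact_mod_cast this
  have hTn : ∀ y ∈ closedBall p R, 0 ≤ T y := by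
    intro y hy
    simp only [hT]
    linarith [(hT1 y hy).1, (hT2 y).1, (hT3 y).1, (hT4 y).1]
  -- the differential inequality
  set B : E → ℝ := fun y => 1 + ∑ l ∈ Finset.range k, (rh (mu l) (z l) y)⁻¹ +
    ∑ j ∈ Finset.range k, mu j ^ 3 * (rh (mu j) (z j) y ^ 7)⁻¹ *
      (1 + ∑ l ∈ (Finset.range k).erase j, Dd mu z l j * (rh (mu l) (z l) y)⁻¹) with hB
  have hB1 : ∀ y, 1 ≤ B y := by
    intro y
    have h1 : 0 ≤ ∑ l ∈ Finset.range k, (rh (mu l) (z l) y)⁻¹ := by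
      apply Finset.sum_nonneg
      intro l hl
      have := rh_pos (hmu l (Finset.mem_range.1 hl)) (z l) y
      positivity
    have h2 : 0 ≤ ∑ j ∈ Finset.range k, mu j ^ 3 * (rh (mu j) (z j) y ^ 7)⁻¹ *
      (1 + ∑ l ∈ (Finset.range k).erase j, Dd mu z l j * (rh (mu l) (z l) y)⁻¹) := by
      apply Finset.sum_nonneg
      intro j hj
      have h1 := hmu j (Finset.mem_range.1 hj)
      have h3 := rh_pos h1 (z j) y
      have h4 : 0 ≤ ∑ l ∈ (Finset.range k).erase j, Dd mu z l j * (rh (mu l) (z l) y)⁻¹ := by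
        apply Finset.sum_nonneg
        intro l hl
        have h2 := rh_pos (hmu l (Finset.mem_range.1 (Finset.mem_of_mem_erase hl))) (z l) y
        have hD : 0 < Dd mu z l j := lt_of_lt_of_le h1 (le_max_right _ _)
        positivity
      positivity
    simp only [hB]
    linarith
  have hsupT : ∀ y ∈ closedBall p R, SupS T y (B y) := by
    intro y hy
    have h1 : SupS S1 y 12 := sup_w0 p y
    have h2 : SupS S2 y (∑ l ∈ Finset.range k, (rh (mu l) (z l) y)⁻¹) := by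
      apply SupS.sum
      intro l hl
      have hl' := Finset.mem_range.1 hl
      have hr := rh_pos (hmu l hl') (z l) y
      have hr1 := hrle y hy l hl'
      refine ((sup_G one_pos (hmu l hl') (z l) y).smul (c := 16 / 5) (by norm_num)).mono ?_
      have h3 : (1 / 64 : ℝ) ≤ ((1 + rh (mu l) (z l) y) ^ 6)⁻¹ := by
        have h4 : (1 + rh (mu l) (z l) y) ^ 6 ≤ 2 ^ 6 :=
          pow_le_pow_left₀ (by positivity) (by linarith) 6
        have h5 := inv_anti₀ (by positivity) h4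
        norm_num at h5 ⊢
        exact h5
      have h6 : 0 < (rh (mu l) (z l) y)⁻¹ := by positivity
      have h7 : (1 / 64 : ℝ) * (rh (mu l) (z l) y)⁻¹ ≤
          ((1 + rh (mu l) (z l) y) ^ 6)⁻¹ * (rh (mu l) (z l) y)⁻¹ :=
        mul_le_mul_of_nonneg_right h3 h6.le
      calc (rh (mu l) (z l) y)⁻¹ = 64 * (1 / 64 * (rh (mu l) (z l) y)⁻¹) := by ring
        _ ≤ 64 * (((1 + rh (mu l) (z l) y) ^ 6)⁻¹ * (rh (mu l) (z l) y)⁻¹) := by linarith
        _ = 16 / 5 * (20 * 1 * ((1 + rh (mu l) (z l) y) ^ 6)⁻¹ * (rh (mu l) (z l) y)⁻¹) := by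
          ring
    have h3 : SupS S3 y (∑ j ∈ Finset.range k,
        (1 + 8 * (k : ℝ)) * (mu j ^ 3 * (rh (mu j) (z j) y ^ 7)⁻¹)) := by
      apply SupS.sum
      intro j hj
      exact (sup_V (hmu j (Finset.mem_range.1 hj)) (z j) y).smul (by positivity)
    have h4 : SupS S4 y (∑ j ∈ Finset.range k, ∑ l ∈ (Finset.range k).erase j,
        mu j ^ 3 * (Dd mu z l j)⁻¹ * (20 * Dd mu z l j *
        ((Dd mu z l j + rh (mu l) (z l) y) ^ 6)⁻¹ * (rh (mu l) (z l) y)⁻¹)) := by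
      apply SupS.sum
      intro j hj
      apply SupS.sum
      intro l hl
      have hj' := hmu j (Finset.mem_range.1 hj)
      have hD : 0 < Dd mu z l j := lt_of_lt_of_le hj' (le_max_right _ _)
      exact (sup_G hD (hmu l (Finset.mem_range.1 (Finset.mem_of_mem_erase hl))) (z l) y).smul
        (by positivity)
    refine (h1.add (h2.add (h3.add h4))).mono ?_
    -- numerical comparison
    have h5 : ∑ j ∈ Finset.range k, mu j ^ 3 * (rh (mu j) (z j) y ^ 7)⁻¹ *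
        (1 + ∑ l ∈ (Finset.range k).erase j, Dd mu z l j * (rh (mu l) (z l) y)⁻¹) ≤
        ∑ j ∈ Finset.range k, (1 + 8 * (k : ℝ)) * (mu j ^ 3 * (rh (mu j) (z j) y ^ 7)⁻¹) +
        ∑ j ∈ Finset.range k, ∑ l ∈ (Finset.range k).erase j,
        mu j ^ 3 * (Dd mu z l j)⁻¹ * (20 * Dd mu z l j *
        ((Dd mu z l j + rh (mu l) (z l) y) ^ 6)⁻¹ * (rh (mu l) (z l) y)⁻¹) := by
      rw [← Finset.sum_add_distrib]
      apply Finset.sum_le_sum
      intro j hj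
      have hj' := hmu j (Finset.mem_range.1 hj)
      have hrj := rh_pos hj' (z j) y
      set q := mu j ^ 3 * (rh (mu j) (z j) y ^ 7)⁻¹ with hq
      have hq0 : 0 ≤ q := by positivity
      rw [mul_add, mul_one, Finset.mul_sum]
      have h6 : ∑ l ∈ (Finset.range k).erase j, q * (Dd mu z l j * (rh (mu l) (z l) y)⁻¹) ≤
          ∑ l ∈ (Finset.range k).erase j, (8 * q + mu j ^ 3 * (Dd mu z l j)⁻¹ *
            (20 * Dd mu z l j *
            ((Dd mu z l j + rh (mu l) (z l) y) ^ 6)⁻¹ * (rh (mu l) (z l) y)⁻¹)) := by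
        apply Finset.sum_le_sum
        intro l hl
        exact pair_le (hmu l (Finset.mem_range.1 (Finset.mem_of_mem_erase hl))) hj' y
      rw [Finset.sum_add_distrib, Finset.sum_const, nsmul_eq_mul] at h6
      have h7 : (((Finset.range k).erase j).card : ℝ) * (8 * q) ≤ k * (8 * q) := by
        apply mul_le_mul_of_nonneg_right _ (by positivity)
        have : ((Finset.range k).erase j).card ≤ k := (Finset.card_erase_le).trans (by simp)
        exact_mod_cast this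
      linarith
    simp only [hB]
    linarith
  have hlapu : ∀ y ∈ ball p R, |(Δ u) y| ≤ M * B y := by
    intro y hy
    have hy' := ball_subset_closedBall hy
    have h1 := hSol y hy
    have h2 : |(Δ u) y| ≤ |Λ| * |u y| + |u y| ^ 2 := by
      have h3 : (Δ u) y = -(nl lam (u y)) := by linarith
      rw [h3, abs_neg]
      unfold nl
      refine (abs_add_le _ _).trans ?_
      rw [abs_mul, abs_mul, abs_abs]
      have h4 : |lam| ≤ |Λ| := by
        rw [abs_of_nonneg hlam0]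
        exact hlam.trans (le_abs_self _)
      have h5 := abs_nonneg (u y)
      nlinarith
    have h3 := hbd y hy'
    have hF0 : 0 ≤ F0 k mu z y := (Real.exp_pos _).le
    have hFj : ∀ j, 0 ≤ Fj k mu z j y := fun j => (Real.exp_pos _).le
    have h4 : |u y| ^ 2 ≤ C ^ 2 * (k + 1) * B y := by
      have h5 : |u y| ^ 2 ≤ C ^ 2 * (F0 k mu z y + ∑ j ∈ Finset.range k, Fj k mu z j y) ^ 2 := by
        rw [← mul_pow]
        exact pow_le_pow_left₀ (abs_nonneg _) h3 2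
      have h6 : (F0 k mu z y + ∑ j ∈ Finset.range k, Fj k mu z j y) ^ 2 ≤
          (k + 1) * (F0 k mu z y ^ 2 + ∑ j ∈ Finset.range k, Fj k mu z j y ^ 2) := by
        have h7 : (∑ j ∈ Finset.range k, Fj k mu z j y) ^ 2 ≤
            k * ∑ j ∈ Finset.range k, Fj k mu z j y ^ 2 := by
          have := sq_sum_le_card_mul_sum_sq (s := Finset.range k) (f := fun j => Fj k mu z j y)
          simpa using this
        set X := ∑ j ∈ Finset.range k, Fj k mu z j y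
        set Y := ∑ j ∈ Finset.range k, Fj k mu z j y ^ 2
        set a := F0 k mu z y
        have hk0 : (0 : ℝ) < k := by linarith
        -- (a + X)^2 ≤ (1 + k) (a^2 + X^2/k)
        have h8 : (a + X) ^ 2 ≤ (k + 1) * (a ^ 2 + X ^ 2 / k) := by
          have h9 : (k + 1) * (a ^ 2 + X ^ 2 / k) - (a + X) ^ 2 = (k * a - X) ^ 2 / k := by
            field_simp
            ring
          have h10 : 0 ≤ (k * a - X) ^ 2 / k := by positivity
          linarith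
        have h11 : X ^ 2 / k ≤ Y := by
          rw [div_le_iff₀ hk0]; linarith
        refine h8.trans ?_
        apply mul_le_mul_of_nonneg_left _ (by positivity)
        linarith
      have h12 : F0 k mu z y ^ 2 + ∑ j ∈ Finset.range k, Fj k mu z j y ^ 2 ≤ B y := by
        have h13 := F0_sq_le hk mu z y hmu
        have h14 : ∑ j ∈ Finset.range k, Fj k mu z j y ^ 2 ≤ _ :=
          Finset.sum_le_sum fun j hj => Fj_sq_le hk mu z j y hmu (Finset.mem_range.1 hj)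
        simp only [hB]
        linarith
      calc |u y| ^ 2 ≤ C ^ 2 * (F0 k mu z y + ∑ j ∈ Finset.range k, Fj k mu z j y) ^ 2 := h5
        _ ≤ C ^ 2 * ((k + 1) * B y) := by
            apply mul_le_mul_of_nonneg_left _ (sq_nonneg _)
            refine h6.trans ?_
            exact mul_le_mul_of_nonneg_left h12 (by positivity)
        _ = C ^ 2 * (k + 1) * B y := by ring
    have h5 : |u y| ≤ (1 + |u y| ^ 2) / 2 := by nlinarith [sq_nonneg (|u y| - 1)]
    have h6 : |Λ| * |u y| ≤ |Λ| * ((1 + |u y| ^ 2) / 2) :=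
      mul_le_mul_of_nonneg_left h5 (abs_nonneg _)
    have h7 : (|Λ| / 2 + 1) * |u y| ^ 2 ≤ (|Λ| / 2 + 1) * (C ^ 2 * (k + 1) * B y) :=
      mul_le_mul_of_nonneg_left h4 (by positivity)
    have h8 : |Λ| / 2 * 1 ≤ |Λ| / 2 * B y :=
      mul_le_mul_of_nonneg_left (hB1 y) (by positivity)
    calc |(Δ u) y| ≤ |Λ| * |u y| + |u y| ^ 2 := h2
      _ ≤ |Λ| / 2 + (|Λ| / 2 + 1) * |u y| ^ 2 := by linarith
      _ ≤ M * B y := by
        simp only [hM]
        nlinarith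
  -- comparison
  have key : ∀ v : E → ℝ, ContDiff ℝ 2 v → (∀ y ∈ ball p R, (Δ v) y ≥ -(M * B y)) →
      (∀ y, ‖y - p‖ = R → v y ≤ |C2|) → ∀ y ∈ closedBall p R, v y ≤ S y := by
    intro v hv hlv hsv
    have hSc : ∀ y ∈ closedBall p R, ContDiffAt ℝ 2 S y := by
      intro y hy
      exact contDiffAt_const.add (contDiffAt_const.mul (hsupT y hy).1)
    have hcont : ContinuousOn (fun y => v y - S y) (closedBall p R) := by
      intro y hy
      exact (hv.continuous.continuousAt.sub (hSc y hy).continuousAt).continuousWithinAt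
    obtain ⟨x0, hx0, hmax⟩ := (isCompact_closedBall p R).exists_isMaxOn
      ⟨p, mem_closedBall_self hR.le⟩ hcont
    by_contra hcon
    push Not at hcon
    obtain ⟨y, hy, hlt⟩ := hcon
    have hpos : 0 < v x0 - S x0 := by
      have := hmax hy
      simp only [mem_ofPred_eq] at this
      linarith
    have hx0' : ‖x0 - p‖ ≤ R := hball x0 hx0
    have hT0 := hTn x0 hx0
    have hS0 : |C2| ≤ S x0 := by
      simp only [hS]
      have := mul_nonneg hM'0.le hT0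
      linarith
    have hint : x0 ∈ ball p R := by
      rw [mem_ball, dist_eq_norm]
      rcases lt_or_eq_of_le hx0' with h | h
      · exact h
      · exfalso
        have := hsv x0 h
        linarith
    have hloc : IsLocalMax (fun y => v y - S y) x0 := by
      filter_upwards [isOpen_ball.mem_nhds hint] with w hw
      exact hmax (ball_subset_closedBall hw)
    have hlm := lap_nonpos_of_isLocalMax hloc (hv.contDiffAt.sub (hSc x0 hx0))
    have hsub : (Δ (fun y => v y - S y)) x0 = (Δ v) x0 - (Δ S) x0 :=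
      ContDiffAt.laplacian_sub hv.contDiffAt (hSc x0 hx0)
    have hSl : SupS S x0 (0 + M' * B x0) :=
      (SupS.const |C2| x0).add ((hsupT x0 hx0).smul hM'0.le)
    have h1 := hSl.2
    have h2 := hlv x0 hint
    have h3 := hB1 x0
    rw [hsub] at hlm
    have h4 : M' * B x0 = M * B x0 + B x0 := by simp only [hM']; ring
    linarith
  have hfin : |u x| ≤ S x := by
    rw [abs_le]
    constructor
    · have h1 := key (fun y => -u y) hu.neg (by
        intro y hy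
        have h2 := hlapu y hy
        have h3 : (Δ (fun y => -u y)) y = -(Δ u) y := by
          have : (fun y => -u y) = -u := rfl
          rw [this, laplacian_neg]
          rfl
        rw [h3]
        have := neg_abs_le ((Δ u) y)
        have := le_abs_self ((Δ u) y)
        linarith) (by
        intro y hy
        have h2 := hsph y hy
        have h3 := neg_abs_le (u y)
        have h4 := le_abs_self C2
        linarith) x hx
      linarith
    · exact key u hu (by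
        intro y hy
        have h2 := hlapu y hy
        have := neg_abs_le ((Δ u) y)
        linarith) (by
        intro y hy
        have h2 := hsph y hy
        have h3 := le_abs_self (u y)
        have h4 := le_abs_self C2
        linarith) x hx
  -- final bound
  have hUn : 0 ≤ ∑ l ∈ Finset.range k, U (mu l) (z l) x := by
    apply Finset.sum_nonneg
    intro l hl
    have := A_pos (hmu l (Finset.mem_range.1 hl)) (z l) x
    unfold U
    positivity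
  set Us := ∑ l ∈ Finset.range k, U (mu l) (z l) x with hUs
  have h1 : T x ≤ 2 + 4 * k + (1 + 9 * k) * Us := by
    have a1 := (hT1 x hx).2
    have a2 := (hT2 x).2
    have a3 := (hT3 x).2
    have a4 := (hT4 x).2
    simp only [hT]
    nlinarith
  have h2 : T x ≤ (2 + 4 * k + (1 + 9 * k)) * (1 + Us) := by
    have h3 : (0 : ℝ) ≤ 2 + 4 * k := by positivity
    have h4 : (0 : ℝ) ≤ 1 + 9 * k := by positivity
    nlinarith [mul_nonneg h3 hUn, mul_nonneg h4 hUn]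
  calc |u x| ≤ S x := hfin
    _ = |C2| + M' * T x := rfl
    _ ≤ |C2| + M' * ((2 + 4 * k + (1 + 9 * k)) * (1 + Us)) := by
        have := mul_le_mul_of_nonneg_left h2 hM'0.le
        linarith
    _ ≤ (1 + |C2| + M' * (2 + 4 * k + (1 + 9 * k))) * (1 + Us) := by
        have h5 : 0 ≤ |C2| * Us := mul_nonneg (abs_nonneg _) hUn
        nlinarith

end Pool.Helper4.BT
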